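import Pool.Agent.helper15.XE.SpecS

/-!
# Project XE (MP_5628fe_nt), row xe:GCD: elements of the window with a common factor with M (port of helper37/SK/GCD)
-/

set_option autoImplicit false

namespace Pool.Agent.XE

open Finset ArithmeticFunction MeasureTheory
open Pool.Agent.EC (tri TL)

private lemma GCD_omega (M : ℕ) (hM : 0 < M) : #M.primeFactors ≤ Nat.log 2 M := by
  apply Nat.le_log_of_pow_le (by norm_num)
  calc 2 ^ #M.primeFactors ≤ ∏ p ∈ M.primeFactors, p :=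
        Finset.pow_card_le_prod _ _ _ fun p hp => (Nat.prime_of_mem_primeFactors hp).two_le
    _ ≤ M := Nat.le_of_dvd hM (Nat.prod_primeFactors_dvd M)

private lemma GCD_alpha {r : ℕ} (a : Fin r → ℝ) (h : ∀ i, 0 < a i) : ∃ α : ℝ, 0 < α ∧ ∀ i, α ≤ a i := by
  rcases isEmpty_or_nonempty (Fin r) with he | hne
  · exact ⟨1, one_pos, fun i => he.elim i⟩
  · obtain ⟨i, hi⟩ := Finite.exists_min a
    exact ⟨a i, h i, hi⟩

/-- **GCD** (project XE) -/
theorem GCD (_h1 : Pool.Agent.SK.TLD_stmt) (h2 : TLB_stmt) (h3 : WVB_stmt) (h4 : MLW_stmt) : GCD_stmt := by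
  classical
  intro r a b hab A
  obtain ⟨C, N₁, hC, hTL⟩ := h2 r a b hab
  obtain ⟨N₂, hN₂12, hWV⟩ := h3
  have ha : ∀ i, 0 < a i := hab.1
  have hb : ∑ i, b i < 3 := hab.2
  obtain ⟨α, hα, hαa⟩ := GCD_alpha a ha
  set η : ℝ := min α (min (3 - ∑ i, b i) 1) with hη
  have hη0 : 0 < η := lt_min hα (lt_min (by linarith) one_pos)
  have hη1 : η ≤ 1 := (min_le_right _ _).trans (min_le_right _ _)
  have hηα : η ≤ α := min_le_left _ _
  have hηκ : η ≤ 3 - ∑ i, b i := (min_le_right _ _).trans (min_le_left _ _)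
  -- growth
  have hlo := (isLittleO_log_rpow_rpow_atTop (((3 + A : ℕ) : ℝ)) hη0).bound
    (show (0 : ℝ) < 1 / (968 * C) by positivity)
  have hev : ∀ᶠ N : ℕ in Filter.atTop, ‖Real.log (N : ℝ) ^ (((3 + A : ℕ) : ℝ))‖ ≤
      1 / (968 * C) * ‖(N : ℝ) ^ η‖ ∧ 1 ≤ Real.log (N : ℝ) ∧ N₁ ≤ N ∧ N₂ ≤ N :=
    (tendsto_natCast_atTop_atTop.eventually hlo).and
      (((Real.tendsto_log_atTop.comp tendsto_natCast_atTop_atTop).eventually_ge_atTop _).and
        ((Filter.eventually_ge_atTop N₁).and (Filter.eventually_ge_atTop N₂)))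
  obtain ⟨N₀, hN₀⟩ := Filter.eventually_atTop.1 hev
  refine ⟨N₀, fun N hN v hv M hM0 hM => ?_⟩
  obtain ⟨hgrow, hL1, hNN₁, hNN₂⟩ := hN₀ N hN
  have hN1 : 1 ≤ N := by omega
  have hf : ∀ m, 0 ≤ wv N v m ∧ wv N v m ≤ 1 := fun m =>
    ⟨(((hWV N hNN₂).1 v hv).2.2.2 m).1, (((hWV N hNN₂).1 v hv).2.2.2 m).2.1⟩
  have hNr : (1 : ℝ) ≤ N := by exact_mod_cast hN1
  have hNr0 : (0 : ℝ) < N := by linarith
  set L := Real.log (N : ℝ) with hL
  have hL0 : 0 < L := by linarith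
  have hNη : 0 < (N : ℝ) ^ η := Real.rpow_pos_of_pos hNr0 η
  rw [Real.rpow_natCast, Real.norm_eq_abs, Real.norm_eq_abs, abs_of_pos (by positivity), abs_of_pos hNη,
    one_div_mul_eq_div, le_div_iff₀ (by positivity)] at hgrow
  set W : Finset ℕ := (Z3 N).filter fun m => wv N v m ≠ 0 with hW
  have hWin : ∀ m ∈ W, 0 < m ∧ N ^ 3 ≤ m ∧ m ≤ 64 * N ^ 3 := by
    intro m hm
    rw [hW, Finset.mem_filter] at hm
    have h5 := (((hWV N hNN₂).1 v hv).2.2.2 m).2.2.1 hm.2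
    have h6 := (Finset.mem_Ioc.1 hm.1)
    exact ⟨h6.1, h5.1.le, h6.2⟩
  set K := Nat.log 2 (64 * N ^ 3) with hK
  have h64 : 64 * N ^ 3 ≠ 0 := by positivity
  -- the exceptional divisors
  set Z := (M.primeFactors ×ˢ Icc 1 K).filter fun z : ℕ × ℕ => (N : ℝ) ^ η ≤ ((z.1 ^ z.2 : ℕ) : ℝ) with hZ
  have hZc : ((#Z : ℕ) : ℝ) ≤ (K : ℝ) * K := by
    have h3 : #Z ≤ K * K := by
      refine (Finset.card_filter_le _ _).trans ?_
      rw [Finset.card_product, Nat.card_Icc, Nat.add_sub_cancel]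
      refine Nat.mul_le_mul_right _ ?_
      exact (GCD_omega M hM0).trans (Nat.log_mono_right hM)
    exact_mod_cast h3
  set S := W.filter fun m => ¬ Nat.Coprime m M ∧ TL N a b m ≠ 0 with hS
  have hsub : S ⊆ Z.biUnion fun z => W.filter fun m => z.1 ^ z.2 ∣ m := by
    intro m hm
    rw [hS, Finset.mem_filter] at hm
    obtain ⟨hmW, hmc, hmT⟩ := hm
    obtain ⟨hm0, hmN, hm64⟩ := hWin m hmW
    -- a prime dividing both
    obtain ⟨π, hπ, hπm, hπM⟩ := Nat.Prime.not_coprime_iff_dvd.1 hmc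
    unfold TL at hmT
    obtain ⟨p, hp, hne⟩ := Finset.exists_ne_zero_of_sum_ne_zero hmT
    rw [Finset.mem_filter, Fintype.mem_piFinset] at hp
    obtain ⟨hpp, hpr, hpd⟩ := hp
    have hpos : 0 < ∏ i, p i := Finset.prod_pos fun i _ => (Nat.prime_of_mem_primeFactors (hpp i)).pos
    rw [vonMangoldt_ne_zero_iff, isPrimePow_nat_iff] at hne
    obtain ⟨q, k, hq, hk, hqk⟩ := hne
    have hmfac : m = (∏ i, p i) * q ^ k := by
      rw [hqk, Nat.mul_div_cancel' hpd]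
    -- the exceptional divisor
    obtain ⟨e, he1, he2, he3⟩ : ∃ e : ℕ, 1 ≤ e ∧ (N : ℝ) ^ η ≤ ((π ^ e : ℕ) : ℝ) ∧ π ^ e ∣ m := by
      have h3 : π ∣ (∏ i, p i) * q ^ k := by rw [← hmfac]; exact hπm
      rcases (Nat.Prime.dvd_mul hπ).1 h3 with h4 | h4
      · obtain ⟨i, _, hi⟩ := (Prime.dvd_finsetProd_iff hπ.prime p).1 h4
        have hπi : π = p i := (Nat.prime_dvd_prime_iff_eq hπ (Nat.prime_of_mem_primeFactors (hpp i))).1 hi
        refine ⟨1, le_rfl, ?_, by rw [pow_one]; exact hπm⟩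
        rw [pow_one, hπi]
        refine le_trans ?_ (hpr i).1
        exact Real.rpow_le_rpow_of_exponent_le hNr (hηα.trans (hαa i))
      · have hπq : π = q := (Nat.prime_dvd_prime_iff_eq hπ hq).1 (hπ.dvd_of_dvd_pow h4)
        refine ⟨k, hk, ?_, ?_⟩
        · rw [hπq]
          have h5 : ((∏ i, p i : ℕ) : ℝ) ≤ (N : ℝ) ^ (∑ i, b i) := by
            rw [Nat.cast_prod, Real.rpow_sum_of_pos hNr0]
            exact Finset.prod_le_prod (fun i _ => Nat.cast_nonneg _) fun i _ => (hpr i).2.le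
          have h6 : (N : ℝ) ^ (3 : ℝ) ≤ ((∏ i, p i : ℕ) : ℝ) * ((q ^ k : ℕ) : ℝ) := by
            have h7 : ((N ^ 3 : ℕ) : ℝ) ≤ (m : ℝ) := by exact_mod_cast hmN
            rw [hmfac, Nat.cast_mul] at h7
            refine le_trans (le_of_eq ?_) h7
            push_cast
            rw [← Real.rpow_natCast]
            norm_num
          have h8 : (N : ℝ) ^ (3 : ℝ) ≤ (N : ℝ) ^ (∑ i, b i) * ((q ^ k : ℕ) : ℝ) :=
            h6.trans (mul_le_mul_of_nonneg_right h5 (Nat.cast_nonneg _))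
          have h9 : (N : ℝ) ^ (3 : ℝ) = (N : ℝ) ^ (∑ i, b i) * (N : ℝ) ^ (3 - ∑ i, b i) := by
            rw [← Real.rpow_add hNr0]
            congr 1
            ring
          rw [h9] at h8
          have h10 : (N : ℝ) ^ (3 - ∑ i, b i) ≤ ((q ^ k : ℕ) : ℝ) :=
            le_of_mul_le_mul_left h8 (Real.rpow_pos_of_pos hNr0 _)
          exact (Real.rpow_le_rpow_of_exponent_le hNr hηκ).trans h10
        · rw [hπq, hmfac]
          exact dvd_mul_left _ _
    rw [Finset.mem_biUnion]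
    refine ⟨(π, e), ?_, ?_⟩
    · rw [hZ, Finset.mem_filter, Finset.mem_product, Nat.mem_primeFactors, Finset.mem_Icc]
      refine ⟨⟨⟨hπ, hπM, hM0.ne'⟩, he1, ?_⟩, he2⟩
      apply Nat.le_log_of_pow_le (by norm_num)
      calc 2 ^ e ≤ π ^ e := Nat.pow_le_pow_left hπ.two_le e
        _ ≤ m := Nat.le_of_dvd hm0 he3
        _ ≤ 64 * N ^ 3 := hm64
    · rw [Finset.mem_filter]
      exact ⟨hmW, he3⟩
  have hcount : ((#S : ℕ) : ℝ) ≤ (K : ℝ) * K * (8 * ((N : ℝ) ^ 2 / (N : ℝ) ^ η)) := by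
    have h3 : ((#S : ℕ) : ℝ) ≤ ∑ z ∈ Z, ((#(W.filter fun m => z.1 ^ z.2 ∣ m) : ℕ) : ℝ) := by
      have := (Finset.card_le_card hsub).trans Finset.card_biUnion_le
      exact_mod_cast this
    have h4 : ∀ z ∈ Z, ((#(W.filter fun m => z.1 ^ z.2 ∣ m) : ℕ) : ℝ) ≤
        8 * ((N : ℝ) ^ 2 / (N : ℝ) ^ η) := by
      intro z hz
      rw [hZ, Finset.mem_filter, Finset.mem_product, Nat.mem_primeFactors] at hz
      have hd0 : 0 < z.1 ^ z.2 := pow_pos hz.1.1.1.pos _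
      have h5 := h4 N (by omega) v hv (z.1 ^ z.2) hd0
      rw [hW, Finset.filter_filter]
      refine h5.trans ?_
      have h6 : 6 * (N : ℝ) ^ 2 / ((z.1 ^ z.2 : ℕ) : ℝ) ≤ 7 * (N : ℝ) ^ 2 / (N : ℝ) ^ η :=
        div_le_div₀ (by positivity) (by nlinarith [sq_nonneg (N : ℝ)]) hNη hz.2
      have h7 : 1 ≤ (N : ℝ) ^ 2 / (N : ℝ) ^ η := by
        rw [one_le_div hNη]
        calc (N : ℝ) ^ η ≤ (N : ℝ) ^ (1 : ℝ) := Real.rpow_le_rpow_of_exponent_le hNr hη1
          _ = N := Real.rpow_one _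
          _ ≤ (N : ℝ) ^ 2 := by nlinarith
      have h8 : 7 * (N : ℝ) ^ 2 / (N : ℝ) ^ η = 7 * ((N : ℝ) ^ 2 / (N : ℝ) ^ η) := by ring
      rw [h8] at h6
      linarith
    refine h3.trans ((Finset.sum_le_card_nsmul _ _ _ h4).trans ?_)
    rw [nsmul_eq_mul]
    exact mul_le_mul_of_nonneg_right hZc (by positivity)
  -- K ≤ 11 L
  have hKL : (K : ℝ) ≤ 11 * L := by
    have h3 : 2 ^ K ≤ 64 * N ^ 3 := Nat.pow_log_le_self 2 h64
    have h4 : (2 : ℝ) ^ K ≤ 64 * (N : ℝ) ^ 3 := by exact_mod_cast h3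
    have h5 := Real.log_le_log (by positivity) h4
    rw [Real.log_pow, Real.log_mul (by norm_num) (by positivity), Real.log_pow,
      (by norm_num : (64 : ℝ) = 2 ^ 6), Real.log_pow] at h5
    push_cast at h5
    rw [← hL] at h5
    have h6 := Real.log_two_gt_d9
    have h7 : (0 : ℝ) ≤ K := Nat.cast_nonneg K
    by_contra hcon
    push Not at hcon
    have h8 : (K - 6 : ℝ) * Real.log 2 ≤ 3 * L := by linarith
    have h9 : 5 * L * (6 / 10 : ℝ) ≤ (K - 6 : ℝ) * Real.log 2 := by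
      apply mul_le_mul (by linarith) (by linarith) (by norm_num) (by linarith)
    have h10 : (K - 6 : ℝ) * (6 / 10 : ℝ) ≤ (K - 6 : ℝ) * Real.log 2 :=
      mul_le_mul_of_nonneg_left (by linarith) (by linarith)
    linarith
  -- the sum
  have hsum : ∑ m ∈ Z3 N with ¬ Nat.Coprime m M, TL N a b m * wv N v m ≤ (#S : ℕ) * (C * L) := by
    have h3 : ∑ m ∈ Z3 N with ¬ Nat.Coprime m M, TL N a b m * wv N v m =
        ∑ m ∈ S, TL N a b m * wv N v m := by
      symm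
      apply Finset.sum_subset_zero_on_sdiff
      · intro m hm
        rw [hS, Finset.mem_filter, hW, Finset.mem_filter] at hm
        rw [Finset.mem_filter]
        exact ⟨hm.1.1, hm.2.1⟩
      · intro m hm
        rw [Finset.mem_sdiff, Finset.mem_filter, hS, Finset.mem_filter, hW, Finset.mem_filter] at hm
        by_cases hw : wv N v m = 0
        · rw [hw, mul_zero]
        · have : TL N a b m = 0 := by
            by_contra hne
            exact hm.2 ⟨⟨hm.1.1, hw⟩, hm.1.2, hne⟩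
          rw [this, zero_mul]
      · intro m _
        rfl
    rw [h3, ← nsmul_eq_mul]
    apply Finset.sum_le_card_nsmul
    intro m hm
    rw [hS, Finset.mem_filter] at hm
    obtain ⟨_, _, hm64⟩ := hWin m hm.1
    have h4 := hTL N hNN₁ m hm64
    calc TL N a b m * wv N v m ≤ TL N a b m * 1 := mul_le_mul_of_nonneg_left (hf m).2 h4.1
      _ ≤ C * L := by rw [mul_one]; exact h4.2
  refine hsum.trans ?_
  have hKK : (K : ℝ) * K ≤ 11 * L * (11 * L) := mul_le_mul hKL hKL (Nat.cast_nonneg K) (by positivity)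
  calc ((#S : ℕ) : ℝ) * (C * L) ≤ (K : ℝ) * K * (8 * ((N : ℝ) ^ 2 / (N : ℝ) ^ η)) * (C * L) :=
        mul_le_mul_of_nonneg_right hcount (by positivity)
    _ ≤ 11 * L * (11 * L) * (8 * ((N : ℝ) ^ 2 / (N : ℝ) ^ η)) * (C * L) := by
        apply mul_le_mul_of_nonneg_right _ (by positivity)
        exact mul_le_mul_of_nonneg_right hKK (by positivity)
    _ = (L ^ (3 + A) * (968 * C)) * ((N : ℝ) ^ 2 / (N : ℝ) ^ η) / L ^ A := by
        rw [pow_add]
        field_simp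
        ring
    _ ≤ (N : ℝ) ^ η * ((N : ℝ) ^ 2 / (N : ℝ) ^ η) / L ^ A := by
        apply div_le_div_of_nonneg_right _ (by positivity)
        exact mul_le_mul_of_nonneg_right hgrow (by positivity)
    _ = (N : ℝ) ^ 2 / L ^ A := by
        congr 1
        field_simp

end Pool.Agent.XE
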