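import Pool.Agent.helper15.XE.SpecS
import Pool.Agent.helper9.Tors.Divs

/-!
# Project XE (MP_5628fe_nt), row xe:SML: all variables bounded (port of helper24/SK/SML)
-/

set_option autoImplicit false

namespace Pool.Agent.XE

open Finset ArithmeticFunction MeasureTheory
open Pool.Agent.CH (nit DPb Tset)
open Pool.Agent.EC (tri TL)
open Pool.Agent.SK (uu zN YN gj g0)

private lemma SML_log (k : ℕ) (ε : ℝ) (hε : 0 < ε) :
    ∃ N₀ : ℕ, ∀ N : ℕ, N₀ ≤ N → Real.log N ^ k ≤ (N : ℝ) ^ ε := by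
  have h := (isLittleO_log_rpow_rpow_atTop (k : ℝ) hε).bound (one_pos)
  have h2 := (h.and (Filter.eventually_ge_atTop (3 : ℝ)))
  obtain ⟨x₀, hx⟩ := Filter.eventually_atTop.1 h2
  obtain ⟨n, hn⟩ := exists_nat_ge x₀
  refine ⟨n, fun N hN => ?_⟩
  have hNx : x₀ ≤ (N : ℝ) := hn.trans (by exact_mod_cast hN)
  obtain ⟨h3, h4⟩ := hx N hNx
  rw [one_mul, Real.rpow_natCast] at h3
  have h5 : (0 : ℝ) ≤ (N : ℝ) ^ ε := Real.rpow_nonneg (Nat.cast_nonneg _) _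
  rw [Real.norm_of_nonneg h5] at h3
  exact (le_abs_self _).trans h3

private lemma SML_nit_prod {R : ℕ} (t : ℝ) (m : Fin R → ℕ) (hm : ∀ i, 1 ≤ m i) :
    nit t ((∏ i, m i : ℕ) : ℝ) = ∏ i, nit t (m i : ℝ) := by
  unfold nit
  rw [Nat.cast_prod, Real.log_prod, ← Complex.exp_sum]
  · congr 1
    rw [mul_sum]
    push_cast
    rw [sum_mul]
  · intro i _
    have := hm i
    exact_mod_cast (by omega : m i ≠ 0)

private lemma SML_poly {R : ℕ} (e : Fin R → ℕ) (c : Fin R → ℕ → ℂ) (t : ℝ) :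
    ∑ m ∈ Fintype.piFinset (fun k : Fin R => Ico (2 ^ e k) (2 ^ (e k + 1))),
      (∏ k, c k (m k)) * nit t ((∏ k, m k : ℕ) : ℝ) = ∏ k, DPb (2 ^ e k) (c k) t := by
  unfold DPb
  rw [Finset.prod_univ_sum]
  have hset : (fun k : Fin R => Ico (2 ^ e k) (2 * 2 ^ e k)) =
      fun k : Fin R => Ico (2 ^ e k) (2 ^ (e k + 1)) := by
    funext k
    rw [pow_succ, mul_comm 2]
  rw [hset]
  refine sum_congr rfl fun m hm => ?_
  rw [Fintype.mem_piFinset] at hm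
  rw [SML_nit_prod t m (fun i => (Nat.one_le_two_pow).trans (mem_Ico.1 (hm i)).1), ← prod_mul_distrib]

/-- the coefficients -/
private lemma SML_uu {r : ℕ} (N z X : ℕ) (a b : Fin r → ℝ) (i : ℕ) (k : Fin (r + 2 * i)) (m : ℕ) :
    |uu N z X a b i k m| ≤ 1 + Real.log m := by
  have hl : 0 ≤ Real.log m := Real.log_natCast_nonneg m
  unfold uu
  split_ifs with h1 h2 h3
  · show |if m.Prime ∧ _ ∧ _ then (1 : ℝ) else 0| ≤ _
    split_ifs
    · rw [abs_one]; linarith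
    · rw [abs_zero]; linarith
  · show |if m ≤ z then ((moebius m : ℤ) : ℝ) else 0| ≤ _
    split_ifs
    · have := abs_moebius_le_one (n := m)
      have h4 : |((moebius m : ℤ) : ℝ)| ≤ 1 := by exact_mod_cast this
      linarith
    · rw [abs_zero]; linarith
  · show |if 1 ≤ m ∧ m ≤ X then Real.log m ^ 0 else 0| ≤ _
    split_ifs
    · rw [pow_zero, abs_one]; linarith
    · rw [abs_zero]; linarith
  · show |if 1 ≤ m ∧ m ≤ X then Real.log m ^ 1 else 0| ≤ _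
    split_ifs
    · rw [pow_one, abs_of_nonneg hl]; linarith
    · rw [abs_zero]; linarith

/-- the support -/
private lemma SML_supp {r : ℕ} (N : ℕ) (hN : 8 ≤ N) (a b : Fin r → ℝ) (hb : ∀ j, b j ≤ 3 / 2) (i : ℕ)
    (k : Fin (r + 2 * i)) (m : ℕ) (hm2 : N ^ 2 < m) :
    uu N (zN N) (YN N) a b i k m = 0 := by
  have hN1 : (1 : ℝ) ≤ N := by exact_mod_cast (by omega : 1 ≤ N)
  have hN8 : (8 : ℝ) ≤ N := by exact_mod_cast hN
  have hm3 : (N : ℝ) ^ 2 < m := by exact_mod_cast hm2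
  unfold uu
  split_ifs with h1 h2 h3
  · show (if m.Prime ∧ _ ∧ (m : ℝ) < (N : ℝ) ^ b ⟨k, h1⟩ then (1 : ℝ) else 0) = 0
    rw [if_neg]
    rintro ⟨-, -, h4⟩
    have h5 : (N : ℝ) ^ b ⟨k, h1⟩ ≤ (N : ℝ) ^ (2 : ℝ) :=
      Real.rpow_le_rpow_of_exponent_le hN1 (by linarith [hb ⟨k, h1⟩])
    rw [Real.rpow_two] at h5
    linarith
  · show (if m ≤ zN N then ((moebius m : ℤ) : ℝ) else 0) = 0
    rw [if_neg]
    intro h4
    have h5 : ((zN N : ℕ) : ℝ) ≤ 4 * (N : ℝ) ^ (3 / 7 : ℝ) := Nat.floor_le (by positivity)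
    have h6 : (N : ℝ) ^ (3 / 7 : ℝ) ≤ (N : ℝ) ^ (1 : ℝ) :=
      Real.rpow_le_rpow_of_exponent_le hN1 (by norm_num)
    rw [Real.rpow_one] at h6
    have : (m : ℝ) ≤ zN N := by exact_mod_cast h4
    nlinarith
  · show (if 1 ≤ m ∧ m ≤ YN N then Real.log m ^ 0 else 0) = 0
    rw [if_neg]
    rintro ⟨-, h4⟩
    have h5 : ((YN N : ℕ) : ℝ) ≤ (N : ℝ) ^ (101 / 100 : ℝ) := Nat.floor_le (by positivity)
    have h6 : (N : ℝ) ^ (101 / 100 : ℝ) ≤ (N : ℝ) ^ (2 : ℝ) :=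
      Real.rpow_le_rpow_of_exponent_le hN1 (by norm_num)
    rw [Real.rpow_two] at h6
    have : (m : ℝ) ≤ YN N := by exact_mod_cast h4
    linarith
  · show (if 1 ≤ m ∧ m ≤ YN N then Real.log m ^ 1 else 0) = 0
    rw [if_neg]
    rintro ⟨-, h4⟩
    have h5 : ((YN N : ℕ) : ℝ) ≤ (N : ℝ) ^ (101 / 100 : ℝ) := Nat.floor_le (by positivity)
    have h6 : (N : ℝ) ^ (101 / 100 : ℝ) ≤ (N : ℝ) ^ (2 : ℝ) :=
      Real.rpow_le_rpow_of_exponent_le hN1 (by norm_num)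
    rw [Real.rpow_two] at h6
    have : (m : ℝ) ≤ YN N := by exact_mod_cast h4
    linarith

/-- integers close to `e^v` -/
private lemma SML_near (N : ℕ) (hN : 8 ≤ N) (v : ℝ) (hv : |v - 3 * Real.log N| ≤ 1) (J : Finset ℕ)
    (hJ : ∀ j ∈ J, 1 ≤ j ∧ |Real.log (j : ℝ) - v| ≤ 2 / N) : (#J : ℝ) ≤ 16 * (N : ℝ) ^ 2 := by
  have hN0 : (8 : ℝ) ≤ N := by exact_mod_cast hN
  have hNpos : (0 : ℝ) < N := by linarith
  set y : ℝ := 2 / N with hy
  have hy0 : 0 < y := by positivity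
  have hy1 : y ≤ 1 / 4 := by rw [hy, div_le_div_iff₀ hNpos (by norm_num)]; linarith
  have hsub : J ⊆ Icc ⌈Real.exp (v - y)⌉₊ ⌊Real.exp (v + y)⌋₊ := by
    intro j hj
    obtain ⟨h1, h2⟩ := hJ j hj
    have hj0 : (0 : ℝ) < j := by exact_mod_cast h1
    rw [abs_le] at h2
    rw [mem_Icc]
    constructor
    · rw [Nat.ceil_le, ← Real.le_log_iff_exp_le hj0]; linarith
    · rw [Nat.le_floor_iff (Real.exp_pos _).le, ← Real.log_le_iff_le_exp hj0]; linarith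
  have hcard : (#J : ℝ) ≤ Real.exp (v + y) - Real.exp (v - y) + 1 := by
    have h1 : (#J : ℝ) ≤ ((⌊Real.exp (v + y)⌋₊ + 1 - ⌈Real.exp (v - y)⌉₊ : ℕ) : ℝ) := by
      have := card_le_card hsub
      rw [Nat.card_Icc] at this
      exact_mod_cast this
    refine h1.trans ?_
    have h2 : (⌊Real.exp (v + y)⌋₊ : ℝ) ≤ Real.exp (v + y) := Nat.floor_le (Real.exp_pos _).le
    have h3 : Real.exp (v - y) ≤ (⌈Real.exp (v - y)⌉₊ : ℝ) := Nat.le_ceil _
    rcases le_total ⌈Real.exp (v - y)⌉₊ (⌊Real.exp (v + y)⌋₊ + 1) with h4 | h4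
    · rw [Nat.cast_sub h4]; push_cast; linarith
    · rw [Nat.sub_eq_zero_of_le h4]
      have h5 : Real.exp (v - y) ≤ Real.exp (v + y) := Real.exp_le_exp.2 (by linarith)
      push_cast
      linarith
  have he : Real.exp v ≤ 2.7182818286 * (N : ℝ) ^ 3 := by
    have h1 : v ≤ 1 + 3 * Real.log N := by have := (abs_le.1 hv).2; linarith
    have h2 : Real.exp (3 * Real.log N) = (N : ℝ) ^ 3 := by
      rw [mul_comm, Real.exp_mul, Real.exp_log hNpos]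
      norm_cast
    calc Real.exp v ≤ Real.exp (1 + 3 * Real.log N) := Real.exp_le_exp.2 h1
      _ = Real.exp 1 * (N : ℝ) ^ 3 := by rw [Real.exp_add, h2]
      _ ≤ _ := mul_le_mul_of_nonneg_right Real.exp_one_lt_d9.le (by positivity)
  have hd : Real.exp (v + y) - Real.exp (v - y) ≤ Real.exp v * (5 / 2 * y) := by
    have e1 : Real.exp (v + y) = Real.exp v * Real.exp y := Real.exp_add _ _
    have e2 : Real.exp (v - y) = Real.exp v * Real.exp (-y) := by rw [← Real.exp_add]; ring_nf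
    have e3 : Real.exp y ≤ 1 + y + y ^ 2 := by
      have := Real.abs_exp_sub_one_sub_id_le (x := y) (by rw [abs_of_pos hy0]; linarith)
      have := (abs_le.1 this).2
      linarith
    have e4 : 1 - y ≤ Real.exp (-y) := by have := Real.add_one_le_exp (-y); linarith
    rw [e1, e2, ← mul_sub]
    refine mul_le_mul_of_nonneg_left ?_ (Real.exp_pos _).le
    nlinarith
  have hfin : Real.exp v * (5 / 2 * y) ≤ 2.7182818286 * (N : ℝ) ^ 3 * (5 / 2 * y) :=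
    mul_le_mul_of_nonneg_right he (by positivity)
  have hval : 2.7182818286 * (N : ℝ) ^ 3 * (5 / 2 * y) = 13.591409143 * (N : ℝ) ^ 2 := by
    rw [hy]; field_simp; ring
  have h1 : (1 : ℝ) ≤ (N : ℝ) ^ 2 := by nlinarith
  linarith

/-- near tuples -/
private lemma SML_count (R : ℕ) : ∃ C : ℝ, 1 ≤ C ∧ ∀ N : ℕ, 8 ≤ N → ∀ v : ℝ, |v - 3 * Real.log N| ≤ 1 →
    ∀ R' ≤ R, ∀ S : Finset (Fin R' → ℕ), (∀ m ∈ S, ∀ k, 1 ≤ m k) →
    (#(S.filter fun m => |Real.log ((∏ k, m k : ℕ) : ℝ) - v| ≤ 2 / N) : ℝ) ≤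
      C * (N : ℝ) ^ 2 * (N : ℝ) ^ (1 / 800 : ℝ) := by
  classical
  set ε : ℝ := 1 / (3200 * ((R : ℝ) + 1)) with hε
  have hR0 : (0 : ℝ) ≤ R := Nat.cast_nonneg R
  have hε0 : 0 < ε := by positivity
  obtain ⟨C₀, hC₀, hdiv⟩ := Pool.Agent.helper9.Tors.divisor_bound ε hε0
  set C₁ : ℝ := max C₀ 1 with hC₁
  have hC₁1 : 1 ≤ C₁ := le_max_right _ _
  refine ⟨16 * C₁ ^ R * 8, ?_, ?_⟩
  · have : 1 ≤ C₁ ^ R := one_le_pow₀ hC₁1
    nlinarith
  intro N hN v hv R' hR' S hS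
  have hN0 : (8 : ℝ) ≤ N := by exact_mod_cast hN
  have hNpos : (0 : ℝ) < N := by linarith
  set F := S.filter fun m => |Real.log ((∏ k, m k : ℕ) : ℝ) - v| ≤ 2 / N with hF
  set J := F.image fun m => ∏ k, m k with hJ
  have hJprop : ∀ j ∈ J, 1 ≤ j ∧ |Real.log (j : ℝ) - v| ≤ 2 / N := by
    intro j hj
    rw [hJ, mem_image] at hj
    obtain ⟨m, hm, rfl⟩ := hj
    rw [hF, mem_filter] at hm
    exact ⟨Nat.succ_le_of_lt (Finset.prod_pos fun k _ => hS m hm.1 k), hm.2⟩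
  have hJcard := SML_near N hN v hv J hJprop
  have hfib : ∀ j ∈ J, (#(F.filter fun m => ∏ k, m k = j) : ℝ) ≤ C₁ ^ R * 8 * (N : ℝ) ^ (1 / 800 : ℝ) := by
    intro j hj
    obtain ⟨hj1, hj2⟩ := hJprop j hj
    have hj0 : (0 : ℝ) < j := by exact_mod_cast hj1
    have hcard : #(F.filter fun m => ∏ k, m k = j) ≤ j.divisors.card ^ R' := by
      have hsub : (F.filter fun m => ∏ k, m k = j) ⊆ Fintype.piFinset (fun _ : Fin R' => j.divisors) := by
        intro m hm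
        rw [mem_filter] at hm
        rw [Fintype.mem_piFinset]
        intro k
        rw [Nat.mem_divisors]
        refine ⟨?_, by omega⟩
        rw [← hm.2]
        exact Finset.dvd_prod_of_mem _ (mem_univ k)
      refine (card_le_card hsub).trans (le_of_eq ?_)
      rw [Fintype.card_piFinset]
      simp
    have hjN : (j : ℝ) ≤ 8 * (N : ℝ) ^ 3 := by
      have h1 : Real.log j ≤ 3 * Real.log N + 5 / 4 := by
        have h2 := (abs_le.1 hj2).2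
        have h3 := (abs_le.1 hv).2
        have h4 : 2 / (N : ℝ) ≤ 1 / 4 := by rw [div_le_div_iff₀ hNpos (by norm_num)]; linarith
        linarith
      have h5 : Real.log (8 * (N : ℝ) ^ 3) = Real.log 8 + 3 * Real.log N := by
        rw [Real.log_mul (by norm_num) (by positivity), Real.log_pow]; norm_num
      have h6 : (5 / 4 : ℝ) ≤ Real.log 8 := by
        rw [show (8 : ℝ) = 2 ^ 3 by norm_num, Real.log_pow]
        have := Real.log_two_gt_d9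
        push_cast
        linarith
      rw [← Real.log_le_log_iff hj0 (by positivity), h5]
      linarith
    have hjp : ((j.divisors.card : ℕ) : ℝ) ≤ C₁ * (8 * (N : ℝ) ^ 3) ^ ε := by
      refine (hdiv j (by omega)).trans ?_
      refine mul_le_mul (le_max_left _ _) ?_ (by positivity) (by linarith)
      exact Real.rpow_le_rpow hj0.le hjN hε0.le
    have hbase : 1 ≤ C₁ * (8 * (N : ℝ) ^ 3) ^ ε := by
      refine one_le_mul_of_one_le_of_one_le hC₁1 (Real.one_le_rpow ?_ hε0.le)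
      nlinarith [pow_pos hNpos 3, pow_le_pow_left₀ (by norm_num : (0 : ℝ) ≤ 8) hN0 3]
    calc (#(F.filter fun m => ∏ k, m k = j) : ℝ) ≤ ((j.divisors.card ^ R' : ℕ) : ℝ) := by
          exact_mod_cast hcard
      _ = ((j.divisors.card : ℕ) : ℝ) ^ R' := by push_cast; rfl
      _ ≤ (C₁ * (8 * (N : ℝ) ^ 3) ^ ε) ^ R' := pow_le_pow_left₀ (Nat.cast_nonneg _) hjp _
      _ ≤ (C₁ * (8 * (N : ℝ) ^ 3) ^ ε) ^ R := pow_le_pow_right₀ hbase hR'
      _ = C₁ ^ R * (8 * (N : ℝ) ^ 3) ^ (ε * R) := by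
          rw [mul_pow, ← Real.rpow_natCast ((8 * (N : ℝ) ^ 3) ^ ε), ← Real.rpow_mul (by positivity)]
      _ ≤ C₁ ^ R * (8 * (N : ℝ) ^ (1 / 800 : ℝ)) := by
          refine mul_le_mul_of_nonneg_left ?_ (by positivity)
          have hεR : ε * R ≤ 1 / 3200 := by
            rw [hε, one_div, inv_mul_le_iff₀ (by positivity)]
            linarith
          have h1 : (1 : ℝ) ≤ 8 * (N : ℝ) ^ 3 := by
            nlinarith [pow_le_pow_left₀ (by norm_num : (0 : ℝ) ≤ 8) hN0 3]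
          calc (8 * (N : ℝ) ^ 3) ^ (ε * R) ≤ (8 * (N : ℝ) ^ 3) ^ (1 / 3200 : ℝ) :=
                Real.rpow_le_rpow_of_exponent_le h1 hεR
            _ = 8 ^ (1 / 3200 : ℝ) * ((N : ℝ) ^ 3) ^ (1 / 3200 : ℝ) :=
                Real.mul_rpow (by norm_num) (by positivity)
            _ ≤ 8 * (N : ℝ) ^ (1 / 800 : ℝ) := by
                refine mul_le_mul ?_ ?_ (by positivity) (by norm_num)
                · calc (8 : ℝ) ^ (1 / 3200 : ℝ) ≤ 8 ^ (1 : ℝ) :=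
                      Real.rpow_le_rpow_of_exponent_le (by norm_num) (by norm_num)
                    _ = 8 := Real.rpow_one _
                · rw [← Real.rpow_natCast (N : ℝ) 3, ← Real.rpow_mul hNpos.le]
                  exact Real.rpow_le_rpow_of_exponent_le (by linarith) (by norm_num)
      _ = _ := by ring
  have hmaps : ∀ m ∈ F, (∏ k, m k) ∈ J := fun m hm => mem_image_of_mem _ hm
  have hsum := card_eq_sum_card_fiberwise hmaps
  rw [hsum]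
  push_cast
  calc ∑ j ∈ J, (#(F.filter fun m => ∏ k, m k = j) : ℝ)
      ≤ ∑ _j ∈ J, C₁ ^ R * 8 * (N : ℝ) ^ (1 / 800 : ℝ) := sum_le_sum hfib
    _ = #J * (C₁ ^ R * 8 * (N : ℝ) ^ (1 / 800 : ℝ)) := by rw [sum_const, nsmul_eq_mul]
    _ ≤ 16 * (N : ℝ) ^ 2 * (C₁ ^ R * 8 * (N : ℝ) ^ (1 / 800 : ℝ)) :=
        mul_le_mul_of_nonneg_right hJcard (by positivity)
    _ = _ := by ring

/-- one near block -/
private lemma SML_one {r : ℕ} (a b : Fin r → ℝ) (B₁ AF B A' Rm : ℕ) (C : ℝ) (N : ℕ) (v : ℝ) (q : ℕ)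
    (χ : DirichletCharacter ℂ q) (i : ℕ) (K : ℕ) (hR : r + 2 * i ≤ Rm) (hN : 8 ≤ N) (hL : 1 ≤ Real.log N)
    (hcount : ∀ S : Finset (Fin (r + 2 * i) → ℕ), (∀ m ∈ S, ∀ k, 1 ≤ m k) →
      (#(S.filter fun m => |Real.log ((∏ k, m k : ℕ) : ℝ) - v| ≤ 2 / N) : ℝ) ≤
        C * (N : ℝ) ^ 2 * (N : ℝ) ^ (1 / 800 : ℝ))
    (hlog : 1 + Real.log (2 * (N : ℝ) ^ 2) ≤ Real.log N ^ 2) (hK : 2 ^ K ≤ 2 * N ^ 2)
    (hF : ∀ (ι : Type) (S : Finset ι) (x : ι → ℕ) (f : ι → ℂ), (∀ w ∈ S, 1 ≤ x w) →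
      ‖∑ w ∈ S, f w * gj B N v (x w)‖ ≤ (∑ w ∈ S, ‖f w‖) / (N * Real.log N ^ AF) +
        (N : ℝ) ^ (-(1 / 200) : ℝ) * (∑ w ∈ S with |Real.log (x w : ℝ) - v| ≤ 2 / N, ‖f w‖) +
        1 / (N : ℝ) * ∫ t in Tset (1 / 200) B₁ N,
          ‖∑ w ∈ S, f w * nit t (x w : ℝ)‖ * min 1 (8 * (N : ℝ) ^ 2 / t ^ 2))
    (e : Fin (r + 2 * i) → ℕ) (he : ∀ k, e k < K) (he8 : ∏ k, 2 ^ e k ≤ 8 * N ^ 3)
    (hI : ∫ t in Tset (1 / 200) B₁ N, (∏ k, ‖DPb (2 ^ e k)
      (fun m => ((uu N (zN N) (YN N) a b i k m : ℝ) : ℂ) * χ m) t‖) * min 1 (8 * (N : ℝ) ^ 2 / t ^ 2) ≤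
        (N : ℝ) ^ 3 / Real.log N ^ A') :
    ‖∑ m ∈ Fintype.piFinset (fun k : Fin (r + 2 * i) => Ico (2 ^ e k) (2 ^ (e k + 1))),
      (∏ k, ((uu N (zN N) (YN N) a b i k (m k) : ℝ) : ℂ)) *
        (χ ((∏ k, m k : ℕ) : ZMod q) * gj B N v (∏ k, m k))‖ ≤
      8 * (N : ℝ) ^ 2 * Real.log N ^ (2 * Rm) / Real.log N ^ AF +
        (N : ℝ) ^ (-(1 / 200) : ℝ) * (C * (N : ℝ) ^ 2 * (N : ℝ) ^ (1 / 800 : ℝ) * Real.log N ^ (2 * Rm)) +
        (N : ℝ) ^ 2 / Real.log N ^ A' := by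
  classical
  have hN0 : (8 : ℝ) ≤ N := by exact_mod_cast hN
  have hNpos : (0 : ℝ) < N := by linarith
  have hLpos : 0 < Real.log N := by linarith
  set S := Fintype.piFinset (fun k : Fin (r + 2 * i) => Ico (2 ^ e k) (2 ^ (e k + 1))) with hS
  set c : Fin (r + 2 * i) → ℕ → ℂ := fun k m => ((uu N (zN N) (YN N) a b i k m : ℝ) : ℂ) * χ m with hc
  have hSm : ∀ m ∈ S, ∀ k, 2 ^ e k ≤ m k ∧ m k < 2 ^ (e k + 1) := by
    intro m hm k
    rw [hS, Fintype.mem_piFinset] at hm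
    exact mem_Ico.1 (hm k)
  have hS1 : ∀ m ∈ S, ∀ k, 1 ≤ m k := fun m hm k => Nat.one_le_two_pow.trans (hSm m hm k).1
  have hrew : ∑ m ∈ S, (∏ k, ((uu N (zN N) (YN N) a b i k (m k) : ℝ) : ℂ)) *
        (χ ((∏ k, m k : ℕ) : ZMod q) * gj B N v (∏ k, m k)) =
      ∑ m ∈ S, (∏ k, c k (m k)) * gj B N v (∏ k, m k) := by
    refine sum_congr rfl fun m _ => ?_
    rw [← mul_assoc]
    congr 1
    rw [hc, prod_mul_distrib]
    congr 1
    push_cast
    rw [map_prod]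
  have hcn : ∀ m ∈ S, ‖∏ k, c k (m k)‖ ≤ Real.log N ^ (2 * Rm) := by
    intro m hm
    rw [norm_prod]
    have h1 : ∀ k ∈ (univ : Finset (Fin (r + 2 * i))), ‖c k (m k)‖ ≤ Real.log N ^ 2 := by
      intro k _
      rw [hc]
      show ‖((uu N (zN N) (YN N) a b i k (m k) : ℝ) : ℂ) * χ (m k)‖ ≤ _
      rw [norm_mul, Complex.norm_real, Real.norm_eq_abs]
      have h2 := SML_uu N (zN N) (YN N) a b i k (m k)
      have h3 : ‖χ (m k)‖ ≤ 1 := DirichletCharacter.norm_le_one χ _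
      have h4 : m k ≤ 2 * N ^ 2 := by
        have h5 := (hSm m hm k).2
        have h6 : 2 ^ (e k + 1) ≤ 2 ^ K := Nat.pow_le_pow_right (by norm_num) (he k)
        omega
      have h5 : Real.log (m k) ≤ Real.log (2 * (N : ℝ) ^ 2) := by
        refine Real.log_le_log (by exact_mod_cast hS1 m hm k) ?_
        exact_mod_cast h4
      have h6 : 0 ≤ Real.log (m k) := Real.log_natCast_nonneg _
      calc |uu N (zN N) (YN N) a b i k (m k)| * ‖χ (m k)‖ ≤ (1 + Real.log (m k)) * 1 :=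
            mul_le_mul h2 h3 (norm_nonneg _) (by linarith)
        _ ≤ _ := by linarith
    calc ∏ k, ‖c k (m k)‖ ≤ ∏ _k : Fin (r + 2 * i), Real.log N ^ 2 :=
          prod_le_prod (fun k _ => norm_nonneg _) h1
      _ = Real.log N ^ (2 * (r + 2 * i)) := by
          rw [prod_const, card_univ, Fintype.card_fin, ← pow_mul]
      _ ≤ _ := pow_le_pow_right₀ hL (by omega)
  have hScard : (#S : ℝ) ≤ 8 * (N : ℝ) ^ 3 := by
    have h1 : #S = ∏ k, 2 ^ e k := by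
      rw [hS, Fintype.card_piFinset]
      refine prod_congr rfl fun k _ => ?_
      rw [Nat.card_Ico, pow_succ]
      omega
    rw [h1]
    exact_mod_cast he8
  have h := hF (Fin (r + 2 * i) → ℕ) S (fun m => ∏ k, m k) (fun m => ∏ k, c k (m k))
    (fun m hm => Nat.succ_le_of_lt (prod_pos fun k _ => hS1 m hm k))
  rw [hrew]
  refine h.trans ?_
  have hT1 : (∑ m ∈ S, ‖∏ k, c k (m k)‖) / (N * Real.log N ^ AF) ≤
      8 * (N : ℝ) ^ 2 * Real.log N ^ (2 * Rm) / Real.log N ^ AF := by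
    have h1 : ∑ m ∈ S, ‖∏ k, c k (m k)‖ ≤ 8 * (N : ℝ) ^ 3 * Real.log N ^ (2 * Rm) := by
      calc ∑ m ∈ S, ‖∏ k, c k (m k)‖ ≤ ∑ _m ∈ S, Real.log N ^ (2 * Rm) := sum_le_sum hcn
        _ = #S * Real.log N ^ (2 * Rm) := by rw [sum_const, nsmul_eq_mul]
        _ ≤ _ := mul_le_mul_of_nonneg_right hScard (by positivity)
    rw [div_le_div_iff₀ (by positivity) (by positivity)]
    calc (∑ m ∈ S, ‖∏ k, c k (m k)‖) * Real.log N ^ AF ≤
          8 * (N : ℝ) ^ 3 * Real.log N ^ (2 * Rm) * Real.log N ^ AF :=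
          mul_le_mul_of_nonneg_right h1 (by positivity)
      _ = 8 * (N : ℝ) ^ 2 * Real.log N ^ (2 * Rm) * (N * Real.log N ^ AF) := by ring
  have hT2 : ∑ m ∈ S with |Real.log ((∏ k, m k : ℕ) : ℝ) - v| ≤ 2 / N, ‖∏ k, c k (m k)‖ ≤
      C * (N : ℝ) ^ 2 * (N : ℝ) ^ (1 / 800 : ℝ) * Real.log N ^ (2 * Rm) := by
    calc ∑ m ∈ S with |Real.log ((∏ k, m k : ℕ) : ℝ) - v| ≤ 2 / N, ‖∏ k, c k (m k)‖
        ≤ ∑ _m ∈ S with |Real.log ((∏ k, _m k : ℕ) : ℝ) - v| ≤ 2 / N, Real.log N ^ (2 * Rm) :=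
          sum_le_sum fun m hm => hcn m (mem_filter.1 hm).1
      _ = #(S.filter fun m => |Real.log ((∏ k, m k : ℕ) : ℝ) - v| ≤ 2 / N) * Real.log N ^ (2 * Rm) := by
          rw [sum_const, nsmul_eq_mul]
      _ ≤ _ := mul_le_mul_of_nonneg_right (hcount S hS1) (by positivity)
  have hT3 : 1 / (N : ℝ) * ∫ t in Tset (1 / 200) B₁ N,
      ‖∑ m ∈ S, (∏ k, c k (m k)) * nit t ((∏ k, m k : ℕ) : ℝ)‖ * min 1 (8 * (N : ℝ) ^ 2 / t ^ 2) ≤
      (N : ℝ) ^ 2 / Real.log N ^ A' := by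
    have h1 : ∀ t : ℝ, ‖∑ m ∈ S, (∏ k, c k (m k)) * nit t ((∏ k, m k : ℕ) : ℝ)‖ =
        ∏ k, ‖DPb (2 ^ e k) (c k) t‖ := by
      intro t
      rw [hS, SML_poly e c t, norm_prod]
    simp_rw [h1]
    calc 1 / (N : ℝ) * ∫ t in Tset (1 / 200) B₁ N,
          (∏ k, ‖DPb (2 ^ e k) (c k) t‖) * min 1 (8 * (N : ℝ) ^ 2 / t ^ 2) ≤
          1 / (N : ℝ) * ((N : ℝ) ^ 3 / Real.log N ^ A') := mul_le_mul_of_nonneg_left hI (by positivity)
      _ = _ := by field_simp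
  have hT2' := mul_le_mul_of_nonneg_left hT2 (Real.rpow_nonneg hNpos.le (-(1 / 200) : ℝ))
  exact add_le_add (add_le_add hT1 hT2') hT3

/-- **SML** (project XE) -/
theorem SML (h1 : Pool.Agent.SK.PRD_stmt) (h2 : Pool.Agent.SK.FGB_stmt) (h3 : BLK_stmt) (h4 : Pool.Agent.SK.G0B_stmt) : SML_stmt := by
  classical
  intro r a b hadr A Bq
  have hb : ∀ j, b j ≤ 3 / 2 := fun j => (hadr.1 j).2
  set Rm : ℕ := r + 14 with hRm
  obtain ⟨C, hC1, hcount⟩ := SML_count Rm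
  obtain ⟨B₁, N₁, hBLK⟩ := h3 r a b hadr (A + 2 * Rm + 2) Bq
  obtain ⟨B₀, hFGB⟩ := h2 (A + 4 * Rm + 2) B₁
  refine ⟨B₀, fun B hB => ?_⟩
  obtain ⟨N₂, hFGB⟩ := hFGB B hB
  obtain ⟨N₃, hG0⟩ := h4 B
  obtain ⟨N₄, hlogs⟩ := SML_log (A + 4 * Rm + 2) (3 / 800) (by norm_num)
  have hev : ∀ᶠ N : ℕ in Filter.atTop, 9 + C ≤ Real.log (N : ℝ) :=
    (Real.tendsto_log_atTop.comp tendsto_natCast_atTop_atTop).eventually_ge_atTop (9 + C)
  obtain ⟨N₅, hN₅⟩ := Filter.eventually_atTop.1 hev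
  refine ⟨max (max (max N₁ N₂) (max N₃ N₄)) (max N₅ 8), fun N hN v hv q hq hqB χ i hi => ?_⟩
  have hNN₁ : N₁ ≤ N := by omega
  have hNN₂ : N₂ ≤ N := by omega
  have hNN₃ : N₃ ≤ N := by omega
  have hNN₄ : N₄ ≤ N := by omega
  have hNN₅ : N₅ ≤ N := by omega
  have hN8 : 8 ≤ N := by omega
  have hN0 : (8 : ℝ) ≤ N := by exact_mod_cast hN8
  have hNpos : (0 : ℝ) < N := by linarith
  set L : ℝ := Real.log N with hL
  have hLbig : 9 + C ≤ L := hN₅ N hNN₅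
  have hL10 : 10 ≤ L := by linarith
  have hLpos : 0 < L := by linarith
  rw [mem_Icc] at hi
  have hRle : r + 2 * i ≤ Rm := by omega
  set K : ℕ := Nat.log 2 (N ^ 2) + 1 with hK
  have hN2 : N ^ 2 ≠ 0 := by positivity
  have hK1 : N ^ 2 < 2 ^ K := Nat.lt_pow_succ_log_self (by norm_num) _
  have hK2 : 2 ^ K ≤ 2 * N ^ 2 := by
    rw [hK, pow_succ, mul_comm]
    exact Nat.mul_le_mul_left 2 (Nat.pow_log_le_self 2 hN2)
  have hlog2 : Real.log 2 < 0.6931471808 := Real.log_two_lt_d9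
  have hlog2' : 0.6931471803 < Real.log 2 := Real.log_two_gt_d9
  have hl2N : Real.log (2 * (N : ℝ) ^ 2) = Real.log 2 + 2 * L := by
    rw [Real.log_mul (by norm_num) (by positivity), Real.log_pow]
    push_cast
    rfl
  have hlogN : 1 + Real.log (2 * (N : ℝ) ^ 2) ≤ L ^ 2 := by
    rw [hl2N]; nlinarith
  have hKL : (K : ℝ) ≤ L ^ 2 := by
    have h5 : (2 : ℝ) ^ K ≤ 2 * (N : ℝ) ^ 2 := by exact_mod_cast hK2
    have h6 : Real.log ((2 : ℝ) ^ K) ≤ Real.log (2 * (N : ℝ) ^ 2) := Real.log_le_log (by positivity) h5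
    rw [Real.log_pow, hl2N] at h6
    have h7 : (0 : ℝ) ≤ K := Nat.cast_nonneg K
    nlinarith
  -- vanishing of gj
  obtain ⟨-, hg2, -⟩ := hG0 N hNN₃ v
  have hLB : 1 / L ^ B ≤ 1 := by
    rw [div_le_one (by positivity)]
    exact one_le_pow₀ (by linarith)
  have hlog8 : Real.log 8 = 3 * Real.log 2 := by
    rw [show (8 : ℝ) = 2 ^ 3 by norm_num, Real.log_pow]; norm_num
  have hgbig : ∀ j : ℕ, 8 * N ^ 3 < j → gj B N v j = 0 := by
    intro j hj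
    have h5 : Real.log (8 * (N : ℝ) ^ 3) ≤ Real.log j := by
      refine Real.log_le_log (by positivity) ?_
      exact_mod_cast hj.le
    rw [Real.log_mul (by norm_num) (by positivity), Real.log_pow, hlog8] at h5
    push_cast at h5
    have h6 := (abs_le.1 hv).2
    have h7 : g0 B N v (Real.log j) = 0 := by
      refine hg2 _ (hLB.trans ?_)
      rw [le_abs]
      left
      linarith
    unfold gj
    rw [h7, Complex.ofReal_zero]
  have hgsmall : ∀ j : ℕ, 1 ≤ j → 16 * j < N ^ 3 → gj B N v j = 0 := by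
    intro j hj1 hj
    have hj0 : (0 : ℝ) < j := by exact_mod_cast hj1
    have h5 : Real.log (8 * (j : ℝ)) ≤ Real.log ((N : ℝ) ^ 3) := by
      refine Real.log_le_log (by positivity) ?_
      have h8 : 8 * j ≤ N ^ 3 := by omega
      exact_mod_cast h8
    rw [Real.log_mul (by norm_num) (by positivity), Real.log_pow, hlog8] at h5
    push_cast at h5
    have h6 := (abs_le.1 hv).1
    have h7 : g0 B N v (Real.log j) = 0 := by
      refine hg2 _ (hLB.trans ?_)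
      rw [le_abs]
      right
      linarith
    unfold gj
    rw [h7, Complex.ofReal_zero]
  -- change of the range
  have hrange : ∑ m ∈ Ioc 0 (64 * N ^ 3), (((∏ k, uu N (zN N) (YN N) a b i k) m : ℝ) : ℂ) * χ m * gj B N v m =
      ∑ m ∈ Ioc 0 (2 ^ (K * (r + 2 * i))), (((∏ k, uu N (zN N) (YN N) a b i k) m : ℝ) : ℂ) *
        (χ m * gj B N v m) := by
    have hz : ∀ m : ℕ, m ∉ Ioc 0 (8 * N ^ 3) → 0 < m →
        (((∏ k, uu N (zN N) (YN N) a b i k) m : ℝ) : ℂ) * χ m * gj B N v m = 0 := by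
      intro m hm hm0
      rw [mem_Ioc] at hm
      rw [hgbig m (by omega), mul_zero]
    have e1 : ∑ m ∈ Ioc 0 (8 * N ^ 3), (((∏ k, uu N (zN N) (YN N) a b i k) m : ℝ) : ℂ) * χ m * gj B N v m =
        ∑ m ∈ Ioc 0 (64 * N ^ 3), (((∏ k, uu N (zN N) (YN N) a b i k) m : ℝ) : ℂ) * χ m * gj B N v m := by
      refine sum_subset (fun m hm => ?_) (fun m hm hm2 => hz m hm2 (mem_Ioc.1 hm).1)
      rw [mem_Ioc] at hm ⊢
      omega
    have e2 : ∑ m ∈ Ioc 0 (8 * N ^ 3), (((∏ k, uu N (zN N) (YN N) a b i k) m : ℝ) : ℂ) * χ m * gj B N v m =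
        ∑ m ∈ Ioc 0 (2 ^ (K * (r + 2 * i))),
          (((∏ k, uu N (zN N) (YN N) a b i k) m : ℝ) : ℂ) * χ m * gj B N v m := by
      refine sum_subset (fun m hm => ?_) (fun m hm hm2 => hz m hm2 (mem_Ioc.1 hm).1)
      rw [mem_Ioc] at hm ⊢
      refine ⟨hm.1, hm.2.trans ?_⟩
      have h5 : 2 ^ (K * 2) ≤ 2 ^ (K * (r + 2 * i)) :=
        Nat.pow_le_pow_right (by norm_num) (Nat.mul_le_mul_left K (by omega))
      refine le_trans ?_ h5
      rw [pow_mul]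
      calc 8 * N ^ 3 ≤ N * N ^ 3 := Nat.mul_le_mul_right _ hN8
        _ = (N ^ 2) ^ 2 := by ring
        _ ≤ (2 ^ K) ^ 2 := Nat.pow_le_pow_left hK1.le 2
    rw [← e1, e2]
    exact sum_congr rfl fun m _ => mul_assoc _ _ _
  have hPRD := h1 (r + 2 * i) K (fun k => uu N (zN N) (YN N) a b i k)
    (fun k m hm => SML_supp N hN8 a b hb i k m (lt_of_lt_of_le hK1 hm)) (fun m => χ m * gj B N v m)
  rw [hrange, hPRD]
  set bd : ℝ := 8 * (N : ℝ) ^ 2 * L ^ (2 * Rm) / L ^ (A + 4 * Rm + 2) +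
    (N : ℝ) ^ (-(1 / 200) : ℝ) * (C * (N : ℝ) ^ 2 * (N : ℝ) ^ (1 / 800 : ℝ) * L ^ (2 * Rm)) +
    (N : ℝ) ^ 2 / L ^ (A + 2 * Rm + 2) with hbd
  have hbd0 : 0 ≤ bd := by positivity
  have hblock : ∀ e ∈ Fintype.piFinset (fun _ : Fin (r + 2 * i) => range K),
      ‖∑ m ∈ Fintype.piFinset (fun k : Fin (r + 2 * i) => Ico (2 ^ e k) (2 ^ (e k + 1))),
        (∏ k, ((uu N (zN N) (YN N) a b i k (m k) : ℝ) : ℂ)) *
          (χ ((∏ k, m k : ℕ) : ZMod q) * gj B N v (∏ k, m k))‖ ≤ bd := by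
    intro e he
    rw [Fintype.mem_piFinset] at he
    have heK : ∀ k, e k < K := fun k => mem_range.1 (he k)
    by_cases h8 : ∏ k, 2 ^ e k ≤ 8 * N ^ 3
    · by_cases h9 : N ^ 3 ≤ 2 ^ (r + 2 * i + 4) * ∏ k, 2 ^ e k
      · exact SML_one a b B₁ (A + 4 * Rm + 2) B (A + 2 * Rm + 2) Rm C N v q χ i K hRle hN8
          (by rw [← hL]; linarith) (fun S hS => hcount N hN8 v hv (r + 2 * i) hRle S hS) (by rw [← hL]; exact hlogN) hK2
          (hFGB N hNN₂ v) e heK h8 (hBLK N hNN₁ q hq hqB χ i (mem_Icc.2 hi) e h9 h8)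
      · rw [sum_eq_zero, norm_zero]
        · exact hbd0
        · intro m hm
          rw [Fintype.mem_piFinset] at hm
          have hm1 : ∀ k, 1 ≤ m k := fun k => Nat.one_le_two_pow.trans (mem_Ico.1 (hm k)).1
          have h10 : ∏ k, m k ≤ 2 ^ (r + 2 * i) * ∏ k, 2 ^ e k := by
            calc ∏ k, m k ≤ ∏ k : Fin (r + 2 * i), (2 * 2 ^ e k) := by
                  refine prod_le_prod' fun k _ => ?_
                  have := (mem_Ico.1 (hm k)).2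
                  rw [pow_succ] at this
                  omega
              _ = _ := by rw [prod_mul_distrib, prod_const, card_univ, Fintype.card_fin]
          rw [hgsmall _ (Nat.succ_le_of_lt (prod_pos fun k _ => hm1 k)), mul_zero, mul_zero]
          push Not at h9
          calc 16 * ∏ k, m k ≤ 16 * (2 ^ (r + 2 * i) * ∏ k, 2 ^ e k) := Nat.mul_le_mul_left 16 h10
            _ = 2 ^ (r + 2 * i + 4) * ∏ k, 2 ^ e k := by rw [pow_add]; ring
            _ < N ^ 3 := h9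
    · rw [sum_eq_zero, norm_zero]
      · exact hbd0
      · intro m hm
        rw [Fintype.mem_piFinset] at hm
        push Not at h8
        rw [hgbig, mul_zero, mul_zero]
        exact h8.trans_le (prod_le_prod' fun k _ => (mem_Ico.1 (hm k)).1)
  have hcardE : (#(Fintype.piFinset (fun _ : Fin (r + 2 * i) => range K)) : ℝ) ≤ L ^ (2 * Rm) := by
    rw [Fintype.card_piFinset, prod_const, card_univ, Fintype.card_fin, card_range]
    push_cast
    calc (K : ℝ) ^ (r + 2 * i) ≤ (L ^ 2) ^ (r + 2 * i) := pow_le_pow_left₀ (Nat.cast_nonneg K) hKL _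
      _ = L ^ (2 * (r + 2 * i)) := by rw [← pow_mul]
      _ ≤ _ := pow_le_pow_right₀ (by linarith) (by omega)
  calc _ ≤ ∑ e ∈ Fintype.piFinset (fun _ : Fin (r + 2 * i) => range K), bd :=
        (norm_sum_le _ _).trans (sum_le_sum hblock)
    _ = #(Fintype.piFinset (fun _ : Fin (r + 2 * i) => range K)) * bd := by rw [sum_const, nsmul_eq_mul]
    _ ≤ L ^ (2 * Rm) * bd := mul_le_mul_of_nonneg_right hcardE hbd0
    _ ≤ (N : ℝ) ^ 2 / L ^ A := by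
        have hs1 : L ^ (A + 4 * Rm + 2) ≤ (N : ℝ) ^ (3 / 800 : ℝ) := hlogs N hNN₄
        have hLR : 0 < L ^ (2 * Rm) := by positivity
        have t1 : L ^ (2 * Rm) * (8 * (N : ℝ) ^ 2 * L ^ (2 * Rm) / L ^ (A + 4 * Rm + 2)) =
            8 * ((N : ℝ) ^ 2 / L ^ (A + 2)) := by
          rw [show A + 4 * Rm + 2 = (2 * Rm) + (2 * Rm) + (A + 2) by ring, pow_add, pow_add]
          field_simp
        have t3 : L ^ (2 * Rm) * ((N : ℝ) ^ 2 / L ^ (A + 2 * Rm + 2)) = (N : ℝ) ^ 2 / L ^ (A + 2) := by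
          rw [show A + 2 * Rm + 2 = (2 * Rm) + (A + 2) by ring, pow_add]
          field_simp
        have t2 : L ^ (2 * Rm) * ((N : ℝ) ^ (-(1 / 200) : ℝ) *
            (C * (N : ℝ) ^ 2 * (N : ℝ) ^ (1 / 800 : ℝ) * L ^ (2 * Rm))) ≤ C * ((N : ℝ) ^ 2 / L ^ (A + 2)) := by
          have h5 : (N : ℝ) ^ (-(1 / 200) : ℝ) * (N : ℝ) ^ (1 / 800 : ℝ) = ((N : ℝ) ^ (3 / 800 : ℝ))⁻¹ := by
            rw [← Real.rpow_add hNpos, ← Real.rpow_neg hNpos.le]
            norm_num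
          have h6 : ((N : ℝ) ^ (3 / 800 : ℝ))⁻¹ ≤ (L ^ (A + 4 * Rm + 2))⁻¹ :=
            inv_anti₀ (by positivity) hs1
          calc L ^ (2 * Rm) * ((N : ℝ) ^ (-(1 / 200) : ℝ) *
                (C * (N : ℝ) ^ 2 * (N : ℝ) ^ (1 / 800 : ℝ) * L ^ (2 * Rm))) =
                (C * (N : ℝ) ^ 2 * (L ^ (2 * Rm) * L ^ (2 * Rm))) *
                  ((N : ℝ) ^ (-(1 / 200) : ℝ) * (N : ℝ) ^ (1 / 800 : ℝ)) := by ring
            _ ≤ (C * (N : ℝ) ^ 2 * (L ^ (2 * Rm) * L ^ (2 * Rm))) * (L ^ (A + 4 * Rm + 2))⁻¹ := by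
                rw [h5]
                exact mul_le_mul_of_nonneg_left h6 (by positivity)
            _ = C * ((N : ℝ) ^ 2 / L ^ (A + 2)) := by
                rw [show A + 4 * Rm + 2 = (2 * Rm) + (2 * Rm) + (A + 2) by ring, pow_add, pow_add]
                field_simp
        have t4 : (9 + C) * ((N : ℝ) ^ 2 / L ^ (A + 2)) ≤ (N : ℝ) ^ 2 / L ^ A := by
          rw [pow_add, ← mul_div_assoc, div_le_div_iff₀ (by positivity) (by positivity)]
          have h7 : 9 + C ≤ L ^ 2 := by nlinarith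
          calc (9 + C) * (N : ℝ) ^ 2 * L ^ A ≤ L ^ 2 * (N : ℝ) ^ 2 * L ^ A := by gcongr
            _ = _ := by ring
        calc L ^ (2 * Rm) * bd = L ^ (2 * Rm) * (8 * (N : ℝ) ^ 2 * L ^ (2 * Rm) / L ^ (A + 4 * Rm + 2)) +
              L ^ (2 * Rm) * ((N : ℝ) ^ (-(1 / 200) : ℝ) *
                (C * (N : ℝ) ^ 2 * (N : ℝ) ^ (1 / 800 : ℝ) * L ^ (2 * Rm))) +
              L ^ (2 * Rm) * ((N : ℝ) ^ 2 / L ^ (A + 2 * Rm + 2)) := by rw [hbd]; ring
          _ ≤ 8 * ((N : ℝ) ^ 2 / L ^ (A + 2)) + C * ((N : ℝ) ^ 2 / L ^ (A + 2)) + (N : ℝ) ^ 2 / L ^ (A + 2) := by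
              rw [t1, t3]; linarith
          _ = (9 + C) * ((N : ℝ) ^ 2 / L ^ (A + 2)) := by ring
          _ ≤ _ := t4

end Pool.Agent.XE
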