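import Pool.Agent.helper15.XE.SpecS

/-!
# MP_5628fe_nt, row xe:TLB: size of TL (port of helper31/SK/TLB)
-/

set_option autoImplicit false

namespace Pool.Agent.XE

open Finset ArithmeticFunction MeasureTheory
open Pool.Agent.EC (TL)

private theorem TLB_al {r : ℕ} (a b : Fin r → ℝ) (h : Wk a b) :
    ∃ α : ℝ, 0 < α ∧ ∀ i, α ≤ a i := by
  rcases Nat.eq_zero_or_pos r with h0 | h0
  · subst h0
    exact ⟨1, one_pos, fun i => i.elim0⟩
  · obtain ⟨i₀, _, hi⟩ := Finset.exists_min_image (univ : Finset (Fin r)) a ⟨⟨0, h0⟩, mem_univ _⟩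
    exact ⟨a i₀, h.1 i₀, fun i => hi i (mem_univ _)⟩

/-- the number of large prime factors -/
private theorem TLB_card (N m : ℕ) (α : ℝ) (hα : 0 < α) (hN : 64 ≤ N) (hm : m ≤ 64 * N ^ 3) :
    (#(m.primeFactors.filter fun p : ℕ => (N : ℝ) ^ α ≤ (p : ℝ)) : ℝ) ≤ 4 / α := by
  have hN1 : (1 : ℝ) < N := by
    have : 1 < N := by omega
    exact_mod_cast this
  have hN0 : (0 : ℝ) < N := by linarith
  rcases Nat.eq_zero_or_pos m with h0 | h0
  · subst h0
    simp
    positivity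
  set S := m.primeFactors.filter fun p : ℕ => (N : ℝ) ^ α ≤ (p : ℝ) with hS
  have h1 : ((N : ℝ) ^ α) ^ (#S) ≤ ∏ p ∈ S, (p : ℝ) := by
    rw [← Finset.prod_const]
    refine Finset.prod_le_prod (fun p _ => by positivity) (fun p hp => ?_)
    exact (mem_filter.1 hp).2
  have h2 : ∏ p ∈ S, p ≤ m := by
    refine Nat.le_of_dvd h0 (dvd_trans ?_ (Nat.prod_primeFactors_dvd m))
    exact Finset.prod_dvd_prod_of_subset _ _ _ (filter_subset _ _)
  have h3 : ∏ p ∈ S, (p : ℝ) ≤ (N : ℝ) ^ (4 : ℝ) := by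
    have h4 : ∏ p ∈ S, (p : ℝ) = ((∏ p ∈ S, p : ℕ) : ℝ) := by push_cast; rfl
    rw [h4]
    have h5 : ∏ p ∈ S, p ≤ N ^ 4 := by
      calc ∏ p ∈ S, p ≤ m := h2
        _ ≤ 64 * N ^ 3 := hm
        _ ≤ N * N ^ 3 := Nat.mul_le_mul_right _ hN
        _ = N ^ 4 := by ring
    calc ((∏ p ∈ S, p : ℕ) : ℝ) ≤ ((N ^ 4 : ℕ) : ℝ) := by exact_mod_cast h5
      _ = (N : ℝ) ^ (4 : ℝ) := by
        push_cast
        rw [← Real.rpow_natCast]
        norm_num
  have h6 : (N : ℝ) ^ (α * (#S : ℝ)) ≤ (N : ℝ) ^ (4 : ℝ) := by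
    rw [Real.rpow_mul hN0.le, Real.rpow_natCast]
    exact h1.trans h3
  have h7 : α * (#S : ℝ) ≤ 4 := (Real.rpow_le_rpow_left_iff hN1).mp h6
  rw [le_div_iff₀ hα]
  linarith

/-- **TLB** (project XE) -/
theorem TLB (_h1 : Pool.Agent.SK.TLD_stmt) : TLB_stmt := by
  intro r a b hab
  obtain ⟨α, hα, hαi⟩ := TLB_al a b hab
  refine ⟨4 * (4 / α) ^ r, 64, by positivity, ?_⟩
  intro N hN m hm
  have hNR : (64 : ℝ) ≤ N := by exact_mod_cast hN
  have hN0 : (0 : ℝ) < N := by linarith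
  have hlog : 0 ≤ Real.log N := Real.log_natCast_nonneg N
  have hTL0 : 0 ≤ TL N a b m := by
    unfold TL
    exact sum_nonneg fun _ _ => vonMangoldt_nonneg
  refine ⟨hTL0, ?_⟩
  have hlm : ∀ k : ℕ, k ≤ 64 * N ^ 3 → vonMangoldt k ≤ 4 * Real.log N := by
    intro k hk
    rcases Nat.eq_zero_or_pos k with h0 | h0
    · subst h0
      simp
      positivity
    · refine vonMangoldt_le_log.trans ?_
      have hk0 : (0 : ℝ) < k := by exact_mod_cast h0
      have h4 : (k : ℝ) ≤ (N : ℝ) ^ 4 := by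
        have h5 : k ≤ N ^ 4 := by
          calc k ≤ 64 * N ^ 3 := hk
            _ ≤ N * N ^ 3 := Nat.mul_le_mul_right _ hN
            _ = N ^ 4 := by ring
        exact_mod_cast h5
      calc Real.log k ≤ Real.log ((N : ℝ) ^ 4) := Real.log_le_log hk0 h4
        _ = 4 * Real.log N := by rw [Real.log_pow]; norm_num
  unfold TL
  refine (sum_le_card_nsmul _ _ (4 * Real.log N) ?_).trans ?_
  · intro p _
    exact hlm _ ((Nat.div_le_self _ _).trans hm)
  · rw [nsmul_eq_mul]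
    have hN1 : (1 : ℝ) ≤ N := by linarith
    have hcard : ((#((Fintype.piFinset fun _ : Fin r => m.primeFactors).filter fun p =>
        (∀ i, (N : ℝ) ^ a i ≤ (p i : ℝ) ∧ (p i : ℝ) < (N : ℝ) ^ b i) ∧ ∏ i, p i ∣ m) : ℕ) : ℝ) ≤
        (4 / α) ^ r := by
      have h5 : #((Fintype.piFinset fun _ : Fin r => m.primeFactors).filter fun p =>
          (∀ i, (N : ℝ) ^ a i ≤ (p i : ℝ) ∧ (p i : ℝ) < (N : ℝ) ^ b i) ∧ ∏ i, p i ∣ m) ≤
          (#(m.primeFactors.filter fun p : ℕ => (N : ℝ) ^ α ≤ (p : ℝ))) ^ r := by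
        have h6 : #(Fintype.piFinset fun _ : Fin r =>
            (m.primeFactors.filter fun p : ℕ => (N : ℝ) ^ α ≤ (p : ℝ))) =
            (#(m.primeFactors.filter fun p : ℕ => (N : ℝ) ^ α ≤ (p : ℝ))) ^ r := by
          rw [Fintype.card_piFinset]
          simp
        rw [← h6]
        apply card_le_card
        intro p hp
        rw [mem_filter, Fintype.mem_piFinset] at hp
        rw [Fintype.mem_piFinset]
        intro i
        rw [mem_filter]
        refine ⟨hp.1 i, ?_⟩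
        exact (Real.rpow_le_rpow_of_exponent_le hN1 (hαi i)).trans (hp.2.1 i).1
      calc ((#((Fintype.piFinset fun _ : Fin r => m.primeFactors).filter fun p =>
          (∀ i, (N : ℝ) ^ a i ≤ (p i : ℝ) ∧ (p i : ℝ) < (N : ℝ) ^ b i) ∧ ∏ i, p i ∣ m) : ℕ) : ℝ)
          ≤ (((#(m.primeFactors.filter fun p : ℕ => (N : ℝ) ^ α ≤ (p : ℝ))) ^ r : ℕ) : ℝ) := by
            exact_mod_cast h5
        _ ≤ (4 / α) ^ r := by
            push_cast
            exact pow_le_pow_left₀ (Nat.cast_nonneg _) (TLB_card N m α hα hN hm) r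
    have h7 : 0 ≤ 4 * Real.log N := by positivity
    calc _ ≤ (4 / α) ^ r * (4 * Real.log N) := mul_le_mul_of_nonneg_right hcard h7
      _ = 4 * (4 / α) ^ r * Real.log N := by ring

end Pool.Agent.XE
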